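import Pool.Agent.Helper70.RT.Sheet
import Pool.Agent.Helper61.R9.ROOT

/-! # Row SVL of `Pool.Helper70.RT` (MP_798d7d_nt): the large primes of the sieve -/

set_option autoImplicit false

namespace Pool.Helper70.RT

namespace S84

open Polynomial

section
variable {R S : Type*} [CommRing R] [CommRing S]

theorem map_e2 (f : R →+* S) (U V : R) : f (e2 U V) = e2 (f U) (f V) := by
  simp [e2, map_ofNat]

theorem map_e3 (f : R →+* S) (U V : R) : f (e3 U V) = e3 (f U) (f V) := by
  simp [e3, map_ofNat]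

theorem map_g0 (f : R →+* S) (U V : R) : f (g0 U V) = g0 (f U) (f V) := by
  simp [g0, map_ofNat]

theorem map_h3 (f : R →+* S) (U V : R) : f (h3 U V) = h3 (f U) (f V) := by
  simp [h3, map_ofNat]

theorem map_h2 (f : R →+* S) (U V : R) : f (h2 U V) = h2 (f U) (f V) := by
  simp [h2, map_ofNat]

theorem map_h1 (f : R →+* S) (U V : R) : f (h1 U V) = h1 (f U) (f V) := by
  simp [h1, map_ofNat]

theorem map_h0 (f : R →+* S) (U V : R) : f (h0 U V) = h0 (f U) (f V) := by
  simp [h0, map_ofNat]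

theorem map_fI (f : R →+* S) (U V t : R) : f (fI U V t) = fI (f U) (f V) (f t) := by
  simp only [fI, q4, q3, q2, q1, q0, map_add, map_sub, map_mul, map_pow, map_neg, map_ofNat,
    map_e2, map_e3, map_g0, map_h3, map_h2, map_h1, map_h0]

theorem map_fJ (f : R →+* S) (U V t : R) : f (fJ U V t) = fJ (f U) (f V) (f t) := by
  simp only [fJ, q4, q3, q2, q1, q0, map_add, map_sub, map_mul, map_pow, map_neg, map_ofNat,
    map_e2, map_e3, map_g0, map_h3, map_h2, map_h1, map_h0]

theorem fI_expand (U V t : R) : fI U V t = 48 * t ^ 3 + (96 * g0 U V + 4 * e2 U V ^ 2) * t ^ 2 +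
    (48 * h0 U V + 6 * h3 U V * e3 U V + 4 * e2 U V * h2 U V) * t +
      (h2 U V ^ 2 - 3 * h3 U V * h1 U V) := by
  unfold fI q4 q3 q2 q1 q0
  ring

end

theorem eval_pI (U V t : ℤ) : (pI U V).eval t = fI U V t := by
  have h := map_fI (evalRingHom t) (C U) (C V) X
  simp only [coe_evalRingHom, eval_C, eval_X] at h
  exact h

theorem eval_pJ (U V t : ℤ) : (pJ U V).eval t = fJ U V t := by
  have h := map_fJ (evalRingHom t) (C U) (C V) X
  simp only [coe_evalRingHom, eval_C, eval_X] at h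
  exact h

theorem deg_pI (U V : ℤ) : (pI U V).natDegree ≤ 3 := by
  unfold pI
  rw [fI_expand, ← map_g0, ← map_e2, ← map_e3, ← map_h3, ← map_h2, ← map_h1, ← map_h0]
  generalize g0 U V = a1
  generalize e2 U V = a2
  generalize e3 U V = a3
  generalize h3 U V = b3
  generalize h2 U V = b2
  generalize h1 U V = b1
  generalize h0 U V = b0
  compute_degree

theorem deg_pJ (U V : ℤ) : (pJ U V).natDegree ≤ 4 := by
  unfold pJ fJ q4 q3 q2 q1 q0
  rw [← map_g0, ← map_e2, ← map_e3, ← map_h3, ← map_h2, ← map_h1, ← map_h0]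
  generalize g0 U V = a1
  generalize e2 U V = a2
  generalize e3 U V = a3
  generalize h3 U V = b3
  generalize h2 U V = b2
  generalize h1 U V = b1
  generalize h0 U V = b0
  compute_degree

/-- the linear polynomial `z` -/
noncomputable def LL (z M : ℤ) : ℤ[X] := C z + C M * X

theorem LL_deg (z M : ℤ) : (LL z M).natDegree ≤ 1 := by
  unfold LL
  compute_degree

theorem LL_coeff (z M : ℤ) : (LL z M).coeff 1 = M := by
  unfold LL
  rw [coeff_add, coeff_C_mul, coeff_X_one, coeff_C_of_ne_zero one_ne_zero, mul_one, zero_add]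

/-- the polynomial of degree 6 in the index of `z` -/
noncomputable def WW (z M a b c : ℤ) : ℤ[X] :=
  C 48 * LL z M ^ 6 + C a * LL z M ^ 4 + C b * LL z M ^ 2 + C c

theorem WW_eval (z M a b c n : ℤ) : (WW z M a b c).eval n =
    48 * ((z + M * n) ^ 2) ^ 3 + a * ((z + M * n) ^ 2) ^ 2 + b * (z + M * n) ^ 2 + c := by
  unfold WW LL
  simp only [eval_add, eval_mul, eval_pow, eval_C, eval_X]
  ring

theorem LLp_deg (z M : ℤ) (k : ℕ) : (LL z M ^ k).natDegree ≤ k := by
  refine natDegree_pow_le.trans ?_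
  have := LL_deg z M
  calc k * (LL z M).natDegree ≤ k * 1 := Nat.mul_le_mul_left k this
    _ = k := mul_one k

theorem WW_deg (z M a b c : ℤ) : (WW z M a b c).natDegree ≤ 6 := by
  unfold WW
  refine natDegree_add_le_of_degree_le (natDegree_add_le_of_degree_le
    (natDegree_add_le_of_degree_le ?_ ?_) ?_) ?_
  · exact (natDegree_C_mul_le _ _).trans (LLp_deg z M 6)
  · exact (natDegree_C_mul_le _ _).trans ((LLp_deg z M 4).trans (by norm_num))
  · exact (natDegree_C_mul_le _ _).trans ((LLp_deg z M 2).trans (by norm_num))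
  · simp

theorem WW_coeff (z M a b c : ℤ) : (WW z M a b c).coeff 6 = 48 * M ^ 6 := by
  unfold WW
  have h6 : (LL z M ^ 6).coeff 6 = M ^ 6 := by
    have := coeff_pow_of_natDegree_le (m := 6) (LL_deg z M)
    rw [LL_coeff] at this
    simpa using this
  have h4 : (LL z M ^ 4).coeff 6 = 0 :=
    coeff_eq_zero_of_natDegree_lt (lt_of_le_of_lt (LLp_deg z M 4) (by norm_num))
  have h2 : (LL z M ^ 2).coeff 6 = 0 :=
    coeff_eq_zero_of_natDegree_lt (lt_of_le_of_lt (LLp_deg z M 2) (by norm_num))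
  rw [coeff_add, coeff_add, coeff_add, coeff_C_mul, coeff_C_mul, coeff_C_mul, h6, h4, h2,
    coeff_C]
  simp

theorem QQ_ge : 10000000 ≤ QQ := by
  unfold QQ
  exact Nat.le_add_left _ _

theorem not_dvd_small (q : ℕ) (hQ : QQ < q) (n : ℤ) (h0 : 0 < n) (hn : n < 10000000) :
    ¬ (q : ℤ) ∣ n := by
  intro h
  have h1 := Int.le_of_dvd h0 h
  have h2 := QQ_ge
  omega

theorem not_dvd_MM (q : ℕ) (hq : q.Prime) (hQ : QQ < q) : ¬ (q : ℤ) ∣ MM := by
  unfold MM
  intro h
  rcases (Nat.prime_iff_prime_int.mp hq).dvd_or_dvd h with h1 | h1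
  · exact not_dvd_small q hQ 1728 (by norm_num) (by norm_num) h1
  · have h2 : q ∣ QQ.factorial := by exact_mod_cast h1
    have h3 := (Nat.Prime.dvd_factorial hq).mp h2
    omega

theorem not_dvd_lead (q : ℕ) (hq : q.Prime) (hQ : QQ < q) : ¬ (q : ℤ) ∣ 48 * MM ^ 6 := by
  intro h
  rcases (Nat.prime_iff_prime_int.mp hq).dvd_or_dvd h with h1 | h1
  · exact not_dvd_small q hQ 48 (by norm_num) (by norm_num) h1
  · exact not_dvd_MM q hq hQ ((Nat.prime_iff_prime_int.mp hq).dvd_of_dvd_pow h1)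

/-- few large primes divide a number -/
theorem few_primes (m x k : ℕ) (hm : 2 ≤ m) (hx : x ≠ 0) (hxk : x ≤ m ^ k)
    (S : Finset ℕ) (hS : S ⊆ x.primeFactors) (hSm : ∀ q ∈ S, m ≤ q) : S.card ≤ k := by
  have h1 : m ^ S.card ≤ ∏ q ∈ S, q := Finset.pow_card_le_prod _ _ _ hSm
  have h2 : ∏ q ∈ S, q ≤ ∏ q ∈ x.primeFactors, q :=
    Finset.prod_le_prod_of_subset_of_one_le' hS
      (fun q hq _ => (Nat.prime_of_mem_primeFactors hq).one_lt.le)
  have h3 : ∏ q ∈ x.primeFactors, q ≤ x :=
    Nat.le_of_dvd (Nat.pos_of_ne_zero hx) (Nat.prod_primeFactors_dvd x)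
  have h4 : m ^ S.card ≤ m ^ k := h1.trans (h2.trans (h3.trans hxk))
  exact (Nat.pow_le_pow_iff_right (by omega)).mp h4

end S84

open S84 in
theorem st_SVL (hREL : ST_REL) (hRES : ST_RES) (hRNZ : ST_RNZ) : ST_SVL := by
  classical
  obtain ⟨C0, hC0, hR⟩ := hRNZ
  have hc : C0 ≤ 2 ^ C0 := Nat.lt_two_pow_self.le
  refine ⟨(1000 + C0) * 12, fun m hm => ?_⟩
  have hcard : ((Box m).filter (fun T => ∃ q : ℕ, q.Prime ∧ m < q ∧ QQ < q ∧
      (q : ℤ) ∣ cA (ww T) ∧ (q : ℤ) ∣ cB (ww T))).card ≤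
      ((1000 + C0) * (12 * m)) * (Finset.range m ×ˢ Finset.range m).card := by
    apply Finset.card_le_mul_card_image_of_maps_to (f := fun T : ℕ × ℕ × ℕ => (T.1, T.2.1))
    · intro T hT
      have hT1 := (Finset.mem_filter.mp hT).1
      unfold Box at hT1
      rw [Finset.mem_product, Finset.mem_product] at hT1
      exact Finset.mem_product.mpr ⟨hT1.1, hT1.2.1⟩
    · rintro ⟨a1, a2⟩ hb
      rw [Finset.mem_product, Finset.mem_range, Finset.mem_range] at hb
      have hT0 : ((a1, a2, 0) : ℕ × ℕ × ℕ) ∈ Box m := by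
        unfold Box
        rw [Finset.mem_product, Finset.mem_product, Finset.mem_range, Finset.mem_range,
          Finset.mem_range]
        exact ⟨hb.1, hb.2, by positivity⟩
      obtain ⟨hx0, hxb⟩ := hR m (by omega) (a1, a2, 0) hT0
      have eU : (ww (a1, a2, 0)).1 = 4 + MM * (a1 : ℤ) := rfl
      have eV : (ww (a1, a2, 0)).2.1 = -1 + MM * (a2 : ℤ) := rfl
      rw [eU, eV] at hx0 hxb
      generalize hU : 4 + MM * (a1 : ℤ) = U at hx0 hxb
      generalize hV : -1 + MM * (a2 : ℤ) = V at hx0 hxb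
      set x : ℕ := (Ru U V).natAbs with hx
      have hxne : x ≠ 0 := Int.natAbs_ne_zero.mpr hx0
      have hxk : x ≤ m ^ (1000 + C0) := by
        have h1 : (x : ℤ) ≤ (C0 : ℤ) * (m : ℤ) ^ 1000 := by
          rw [hx, Int.natCast_natAbs]
          exact hxb
        have h2 : x ≤ C0 * m ^ 1000 := by exact_mod_cast h1
        have h3 : 2 ^ C0 ≤ m ^ C0 := Nat.pow_le_pow_left hm C0
        calc x ≤ C0 * m ^ 1000 := h2
          _ ≤ m ^ C0 * m ^ 1000 := Nat.mul_le_mul_right _ (hc.trans h3)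
          _ = m ^ (1000 + C0) := by rw [← pow_add, add_comm]
      set S : Finset ℕ := x.primeFactors.filter (fun q => m < q ∧ QQ < q) with hS
      have hScard : S.card ≤ 1000 + C0 :=
        few_primes m x (1000 + C0) hm hxne hxk S (Finset.filter_subset _ _)
          (fun q hq => (Finset.mem_filter.mp hq).2.1.le)
      set G : ℕ → Finset ℕ := fun q => (Finset.range (m ^ 2)).filter
        (fun n => (q : ℤ) ∣ fI U V ((5 + MM * (n : ℤ)) ^ 2)) with hG
      have hGc : ∀ q ∈ S, (G q).card ≤ 12 * m := by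
        intro q hq
        obtain ⟨hq1, hq2, hq3⟩ := Finset.mem_filter.mp hq
        have hqp := Nat.prime_of_mem_primeFactors hq1
        have h1 := Pool.Helper34.R9.st_ROOT
          (WW 5 MM (96 * g0 U V + 4 * e2 U V ^ 2)
            (48 * h0 U V + 6 * h3 U V * e3 U V + 4 * e2 U V * h2 U V)
            (h2 U V ^ 2 - 3 * h3 U V * h1 U V)) 6 q (m ^ 2) hqp (WW_deg _ _ _ _ _)
          (by rw [WW_coeff]; exact not_dvd_lead q hqp hq3) (G q) (by
            intro n hn
            obtain ⟨hn1, hn2⟩ := Finset.mem_filter.mp hn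
            refine ⟨Finset.mem_range.mp hn1, ?_⟩
            rw [WW_eval, ← fI_expand]
            exact hn2)
        have h2 : m ^ 2 / q ≤ m := by
          have : m ^ 2 / q ≤ m ^ 2 / m := Nat.div_le_div_left hq2.le (by omega)
          refine this.trans ?_
          rw [sq, Nat.mul_div_cancel _ (by omega)]
        calc (G q).card ≤ 6 * (m ^ 2 / q + 1) := h1
          _ ≤ 6 * (m + 1) := by omega
          _ ≤ 12 * m := by omega
      have hsub : (((Box m).filter (fun T => ∃ q : ℕ, q.Prime ∧ m < q ∧ QQ < q ∧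
          (q : ℤ) ∣ cA (ww T) ∧ (q : ℤ) ∣ cB (ww T))).filter
            (fun T => (T.1, T.2.1) = (a1, a2))).card ≤ (S.biUnion G).card := by
        apply Finset.card_le_card_of_injOn (fun T : ℕ × ℕ × ℕ => T.2.2)
        · rintro ⟨t1, t2, n⟩ hT
          rw [Finset.mem_coe, Finset.mem_filter, Finset.mem_filter] at hT
          obtain ⟨⟨hTB, q, hqp, hqm, hqQ, hqA, hqB⟩, hTe⟩ := hT
          have e1 : t1 = a1 := congrArg Prod.fst hTe
          have e2' : t2 = a2 := congrArg Prod.snd hTe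
          subst e1
          subst e2'
          unfold Box at hTB
          rw [Finset.mem_product, Finset.mem_product] at hTB
          have hcong : Cong (ww (t1, t2, n)) := by
            refine ⟨⟨(t1 : ℤ), ?_⟩, ⟨(t2 : ℤ), ?_⟩, ⟨(n : ℤ), ?_⟩⟩
            · show (4 + MM * (t1 : ℤ)) - 4 = _
              ring
            · show (-1 + MM * (t2 : ℤ)) + 1 = _
              ring
            · show (5 + MM * (n : ℤ)) - 5 = _
              ring
          obtain ⟨r1, r2, -, -⟩ := hREL _ hcong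
          have w1' : (ww (t1, t2, n)).1 = U := hU
          have w2' : (ww (t1, t2, n)).2.1 = V := hV
          have w3' : (ww (t1, t2, n)).2.2 = 5 + MM * (n : ℤ) := rfl
          rw [w1', w2', w3'] at r1 r2
          have dI : (q : ℤ) ∣ fI U V ((5 + MM * (n : ℤ)) ^ 2) := by
            have : (q : ℤ) ∣ -(fI U V ((5 + MM * (n : ℤ)) ^ 2)) := by
              rw [← r1]
              exact Dvd.dvd.mul_left hqA 48
            exact (dvd_neg.mp this)
          have dJ : (q : ℤ) ∣ fJ U V ((5 + MM * (n : ℤ)) ^ 2) := by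
            have : (q : ℤ) ∣ -(fJ U V ((5 + MM * (n : ℤ)) ^ 2)) := by
              rw [← r2]
              exact Dvd.dvd.mul_left hqB 1728
            exact (dvd_neg.mp this)
          have dR : (q : ℤ) ∣ Ru U V := hRES (pI U V) (pJ U V) (deg_pI U V) (deg_pJ U V) q
            ((5 + MM * (n : ℤ)) ^ 2) (by rw [eval_pI]; exact dI) (by rw [eval_pJ]; exact dJ)
          rw [Finset.mem_coe, Finset.mem_biUnion]
          refine ⟨q, ?_, ?_⟩
          · rw [hS, Finset.mem_filter, Nat.mem_primeFactors]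
            exact ⟨⟨hqp, Int.natCast_dvd.mp dR, hxne⟩, hqm, hqQ⟩
          · exact Finset.mem_filter.mpr ⟨hTB.2.2, dI⟩
        · rintro ⟨t1, t2, n⟩ hT ⟨t1', t2', n'⟩ hT' hn
          rw [Finset.mem_coe, Finset.mem_filter] at hT hT'
          have e1 : t1 = a1 := congrArg Prod.fst hT.2
          have e2' : t2 = a2 := congrArg Prod.snd hT.2
          have e3' : t1' = a1 := congrArg Prod.fst hT'.2
          have e4' : t2' = a2 := congrArg Prod.snd hT'.2
          have e5' : n = n' := hn
          rw [e1, e2', e3', e4', e5']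
      refine hsub.trans (Finset.card_biUnion_le.trans ?_)
      calc ∑ q ∈ S, (G q).card ≤ S.card • (12 * m) := Finset.sum_le_card_nsmul _ _ _ hGc
        _ = S.card * (12 * m) := by rw [smul_eq_mul]
        _ ≤ (1000 + C0) * (12 * m) := Nat.mul_le_mul_right _ hScard
  rw [Finset.card_product, Finset.card_range] at hcard
  refine hcard.trans (le_of_eq ?_)
  ring

end Pool.Helper70.RT
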