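import Pool.Agent.Helper37.RT.Defs
import Pool.Agent.Helper37.RQ.A1

set_option autoImplicit false

/-! Global test sets in the plane. -/

namespace Pool.Agent.Helper37.RT

open MeasureTheory Set Filter Topology
open scoped ENNReal

namespace T11r

open Pool.Agent.Helper37.RQ (eta HH eta_pos eta_anti eta_continuous eta_integrable HH_sub HH_mono
  HH_nonneg HH_le_one HH_continuous eta_lower)

/-- coordinates -/
def co (i : Fin 2) (y : ℝ × ℝ) : ℝ := if i = 0 then y.1 else y.2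

theorem co_add (i : Fin 2) (x y : ℝ × ℝ) : co i (x + y) = co i x + co i y := by
  unfold co
  split_ifs <;> rfl

theorem co_sub (i : Fin 2) (x y : ℝ × ℝ) : co i (x - y) = co i x - co i y := by
  unfold co
  split_ifs <;> rfl

theorem co_smul (i : Fin 2) (r : ℝ) (y : ℝ × ℝ) : co i (r • y) = r * co i y := by
  unfold co
  split_ifs <;> rfl

theorem co_abs (i : Fin 2) (y : ℝ × ℝ) : |co i y| ≤ ‖y‖ := by
  unfold co
  split_ifs
  · exact norm_fst_le y
  · exact norm_snd_le y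

theorem co_cont (i : Fin 2) : Continuous (co i) := by
  by_cases h : i = 0
  · have : co i = fun y => y.1 := by
      funext y
      exact if_pos h
    rw [this]
    exact continuous_fst
  · have : co i = fun y => y.2 := by
      funext y
      exact if_neg h
    rw [this]
    exact continuous_snd

theorem co_dist (x x' : ℝ × ℝ) : ∃ i : Fin 2, |co i x - co i x'| = dist x x' := by
  rw [Prod.dist_eq]
  rcases le_total (dist x.1 x'.1) (dist x.2 x'.2) with h | h
  · refine ⟨1, ?_⟩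
    rw [max_eq_right h, Real.dist_eq]
    rfl
  · refine ⟨0, ?_⟩
    rw [max_eq_left h, Real.dist_eq]
    rfl

theorem HH_lower {a b M : ℝ} (hab : a ≤ b) (ha : |a| ≤ M) (hb : |b| ≤ M) :
    (b - a) * eta M ≤ HH b - HH a := by
  rw [HH_sub]
  have h1 : ∫ _x in a..b, eta M = (b - a) * eta M := by
    rw [intervalIntegral.integral_const, smul_eq_mul]
  rw [← h1]
  apply intervalIntegral.integral_mono_on hab (continuous_const.intervalIntegrable _ _)
    (eta_continuous.intervalIntegrable _ _)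
  intro s hs
  apply eta_anti
  rw [abs_of_nonneg ((abs_nonneg a).trans ha)]
  rw [abs_le] at ha hb ⊢
  exact ⟨by linarith [hs.1], by linarith [hs.2]⟩

theorem HH_lip (a b : ℝ) : |HH a - HH b| ≤ eta 0 * |a - b| := by
  have key : ∀ a b : ℝ, a ≤ b → |HH a - HH b| ≤ eta 0 * |a - b| := by
    intro a b hab
    rw [abs_sub_comm (HH a), abs_sub_comm a, abs_of_nonneg (by linarith [HH_mono hab] :
      0 ≤ HH b - HH a), abs_of_nonneg (by linarith : 0 ≤ b - a), HH_sub]
    have h1 : ∫ _x in a..b, eta 0 = eta 0 * (b - a) := by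
      rw [intervalIntegral.integral_const, smul_eq_mul, mul_comm]
    rw [← h1]
    apply intervalIntegral.integral_mono_on hab (eta_continuous.intervalIntegrable _ _)
      (continuous_const.intervalIntegrable _ _)
    intro s _
    apply eta_anti
    simp
  rcases le_total a b with h | h
  · exact key a b h
  · rw [abs_sub_comm (HH a), abs_sub_comm a]
    exact key b a h

theorem adm (i : Fin 2) (v : ℝ × ℝ) : Adm (eta 0) (fun y => HH (co i (y + v))) where
  nonneg y := HH_nonneg _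
  le_one y := HH_le_one _
  lip y y' := by
    refine (HH_lip _ _).trans ?_
    apply mul_le_mul_of_nonneg_left _ (eta_pos 0).le
    rw [← co_sub, add_sub_add_right_eq_sub, dist_eq_norm]
    exact co_abs _ _

/-- change of variables -/
theorem cv {E : Set (ℝ × ℝ)} {r : ℝ} (hr : 0 < r) (x : ℝ × ℝ) (φ : ℝ × ℝ → ℝ) :
    ∫ y, φ y * ff E r x y
      = r ^ 2 * ∫ z, φ (x + r • z) * E.indicator (fun _ => (1 : ℝ)) z := by
  have h1 := Measure.integral_comp_smul (volume : Measure (ℝ × ℝ))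
    (fun u => φ (x + u) * E.indicator (fun _ => (1 : ℝ)) (r⁻¹ • u)) r
  have h2 : ∫ u, φ (x + u) * E.indicator (fun _ => (1 : ℝ)) (r⁻¹ • u) = ∫ y, φ y * ff E r x y := by
    rw [← integral_sub_right_eq_self
      (fun u => φ (x + u) * E.indicator (fun _ => (1 : ℝ)) (r⁻¹ • u)) x]
    refine integral_congr_ae (Eventually.of_forall fun y => ?_)
    show φ (x + (y - x)) * E.indicator (fun _ => (1 : ℝ)) (r⁻¹ • (y - x)) = φ y * ff E r x y
    rw [add_sub_cancel]
    rfl
  have h3 : Module.finrank ℝ (ℝ × ℝ) = 2 := by simp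
  have h4 : ∀ z : ℝ × ℝ, r⁻¹ • (r • z) = z := fun z => inv_smul_smul₀ hr.ne' z
  simp only [h4] at h1
  rw [h2, h3, smul_eq_mul, abs_of_pos (by positivity : (0 : ℝ) < (r ^ 2)⁻¹)] at h1
  rw [h1]
  have : (r : ℝ) ^ 2 ≠ 0 := by positivity
  field_simp

theorem ff_meas {E : Set (ℝ × ℝ)} (hE : MeasurableSet E) (r : ℝ) (x : ℝ × ℝ) :
    Measurable (ff E r x) := by
  have h : ff E r x = (E.indicator (fun _ => (1 : ℝ))) ∘ (fun y => r⁻¹ • (y - x)) := rfl
  rw [h]
  exact (measurable_const.indicator hE).comp ((measurable_id.sub_const x).const_smul r⁻¹)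

theorem ff_nonneg (E : Set (ℝ × ℝ)) (r : ℝ) (x y : ℝ × ℝ) : 0 ≤ ff E r x y :=
  indicator_nonneg (fun _ _ => zero_le_one) _

theorem ff_le_one (E : Set (ℝ × ℝ)) (r : ℝ) (x y : ℝ × ℝ) : ff E r x y ≤ 1 := by
  unfold ff indicator
  split_ifs <;> norm_num

theorem ff_zero {E : Set (ℝ × ℝ)} {L : ℝ} (hL : ∀ z ∈ E, ‖z‖ ≤ L) {r : ℝ} (hr : 0 < r)
    {x y : ℝ × ℝ} (h : r * L < ‖y - x‖) : ff E r x y = 0 := by
  apply indicator_of_notMem
  intro hz
  have h1 := hL _ hz
  rw [norm_smul, norm_inv, Real.norm_eq_abs, abs_of_pos hr, inv_mul_le_iff₀ hr] at h1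
  linarith

theorem ff_int {E : Set (ℝ × ℝ)} (hE : MeasurableSet E) {L : ℝ} (hL : ∀ z ∈ E, ‖z‖ ≤ L) {r : ℝ}
    (hr : 0 < r) (x : ℝ × ℝ) : Integrable (ff E r x) := by
  have h1 : Integrable ((Metric.closedBall x (r * L)).indicator (fun _ => (1 : ℝ))) := by
    rw [integrable_indicator_iff measurableSet_closedBall]
    exact integrableOn_const (measure_closedBall_lt_top).ne
  refine h1.mono' (ff_meas hE r x).aestronglyMeasurable (Eventually.of_forall fun y => ?_)
  rw [Real.norm_eq_abs, abs_of_nonneg (ff_nonneg _ _ _ _)]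
  by_cases hy : y ∈ Metric.closedBall x (r * L)
  · rw [indicator_of_mem hy]
    exact ff_le_one _ _ _ _
  · rw [indicator_of_notMem hy, ff_zero hL hr]
    rw [Metric.mem_closedBall, not_le, dist_eq_norm] at hy
    exact hy

/-- integer vectors -/
noncomputable def jv (j : ℤ × ℤ) : ℝ × ℝ := ((j.1 : ℝ), (j.2 : ℝ))

theorem jv_floor (y : ℝ × ℝ) : y - jv (⌊y.1⌋, ⌊y.2⌋) ∈ BB := by
  have h1 := Int.floor_le y.1
  have h2 := Int.lt_floor_add_one y.1
  have h3 := Int.floor_le y.2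
  have h4 := Int.lt_floor_add_one y.2
  refine ⟨⟨?_, ?_⟩, ⟨?_, ?_⟩⟩
  · show 0 ≤ y.1 - (⌊y.1⌋ : ℝ)
    linarith
  · show y.1 - (⌊y.1⌋ : ℝ) < 1
    linarith
  · show 0 ≤ y.2 - (⌊y.2⌋ : ℝ)
    linarith
  · show y.2 - (⌊y.2⌋ : ℝ) < 1
    linarith

theorem jv_key {y : ℝ × ℝ} {j : ℤ × ℤ} (h : y - jv j ∈ BB) : j = (⌊y.1⌋, ⌊y.2⌋) := by
  obtain ⟨⟨h1, h2⟩, h3, h4⟩ := h
  have h1' : 0 ≤ y.1 - (j.1 : ℝ) := h1
  have h2' : y.1 - (j.1 : ℝ) < 1 := h2
  have h3' : 0 ≤ y.2 - (j.2 : ℝ) := h3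
  have h4' : y.2 - (j.2 : ℝ) < 1 := h4
  apply Prod.ext
  · exact (Int.floor_eq_iff.2 ⟨by linarith, by linarith⟩).symm
  · exact (Int.floor_eq_iff.2 ⟨by linarith, by linarith⟩).symm

theorem jv_uniq {y : ℝ × ℝ} {j j' : ℤ × ℤ} (h : y - jv j ∈ BB) (h' : y - jv j' ∈ BB) :
    j = j' := by
  rw [jv_key h, jv_key h']

theorem BB_norm {y : ℝ × ℝ} (h : y ∈ BB) : ‖y‖ ≤ 1 := by
  obtain ⟨⟨h1, h2⟩, h3, h4⟩ := h
  rw [Prod.norm_def]
  apply max_le
  · rw [Real.norm_eq_abs, abs_of_nonneg h1]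
    exact h2.le
  · rw [Real.norm_eq_abs, abs_of_nonneg h3]
    exact h4.le

theorem BB_meas : MeasurableSet BB := measurableSet_Ico.prod measurableSet_Ico

/-- the union of the translated sets -/
def TT (S : ℤ × ℤ → Set (ℝ × ℝ)) : Set (ℝ × ℝ) := ⋃ j, {y | y - jv j ∈ S j}

theorem TT_meas {S : ℤ × ℤ → Set (ℝ × ℝ)} (hS : ∀ j, MeasurableSet (S j)) :
    MeasurableSet (TT S) :=
  MeasurableSet.iUnion fun j => (measurable_id.sub_const (jv j)) (hS j)

theorem TT_mem {S : ℤ × ℤ → Set (ℝ × ℝ)} (hS : ∀ j, S j ⊆ BB) {y : ℝ × ℝ} (hy : y ∈ BB)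
    (j : ℤ × ℤ) : y + jv j ∈ TT S ↔ y ∈ S j := by
  constructor
  · intro h
    obtain ⟨j', hj'⟩ := mem_iUnion.1 h
    have h1 : y + jv j - jv j' ∈ S j' := hj'
    have h2 : y + jv j - jv j ∈ BB := by rwa [add_sub_cancel_right]
    have h3 := jv_uniq (hS j' h1) h2
    rw [h3, add_sub_cancel_right] at h1
    exact h1
  · intro h
    refine mem_iUnion.2 ⟨j, ?_⟩
    show y + jv j - jv j ∈ S j
    rwa [add_sub_cancel_right]

theorem ff_shift (E : Set (ℝ × ℝ)) (r : ℝ) (x v y : ℝ × ℝ) :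
    ff E r x (y + v) = ff E r (x - v) y := by
  unfold ff
  congr 2
  abel

/-- the contribution of one block -/
noncomputable def DD (E : Set (ℝ × ℝ)) (i : Fin 2) (S : ℤ × ℤ → Set (ℝ × ℝ)) (r : ℝ)
    (x : ℝ × ℝ) (j : ℤ × ℤ) : ℝ :=
  ∫ y in BB, ((S j).indicator (fun _ => (1 : ℝ)) y - HH (co i (y + jv j))) * ff E r (x - jv j) y

theorem HH_meas (i : Fin 2) : Measurable fun y : ℝ × ℝ => HH (co i y) :=
  (HH_continuous.comp (co_cont i)).measurable

theorem decomp {E : Set (ℝ × ℝ)} (hE : MeasurableSet E) {L : ℝ} (hL : ∀ z ∈ E, ‖z‖ ≤ L) {r : ℝ}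
    (hr : 0 < r) (x : ℝ × ℝ) (i : Fin 2) {S : ℤ × ℤ → Set (ℝ × ℝ)} (hSm : ∀ j, MeasurableSet (S j))
    (hS : ∀ j, S j ⊆ BB) :
    HasSum (DD E i S r x) ((∫ y, (TT S).indicator (fun _ => (1 : ℝ)) y * ff E r x y)
      - ∫ y, HH (co i y) * ff E r x y) := by
  have hff := ff_int hE hL hr x
  have hTm := TT_meas hSm
  have hi1 : Integrable (fun y => (TT S).indicator (fun _ => (1 : ℝ)) y * ff E r x y) := by
    refine hff.mono' ((measurable_const.indicator hTm).mul (ff_meas hE r x)).aestronglyMeasurable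
      (Eventually.of_forall fun y => ?_)
    rw [Real.norm_eq_abs, abs_mul, abs_of_nonneg (ff_nonneg E r x y)]
    apply mul_le_of_le_one_left (ff_nonneg E r x y)
    by_cases hy : y ∈ TT S
    · rw [indicator_of_mem hy, abs_one]
    · rw [indicator_of_notMem hy, abs_zero]
      exact zero_le_one
  have hi2 : Integrable (fun y => HH (co i y) * ff E r x y) := by
    refine hff.mono' ((HH_meas i).mul (ff_meas hE r x)).aestronglyMeasurable
      (Eventually.of_forall fun y => ?_)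
    rw [Real.norm_eq_abs, abs_mul, abs_of_nonneg (ff_nonneg E r x y), abs_of_nonneg (HH_nonneg _)]
    exact mul_le_of_le_one_left (ff_nonneg E r x y) (HH_le_one _)
  have hi3 : Integrable (fun y => ((TT S).indicator (fun _ => (1 : ℝ)) y - HH (co i y))
      * ff E r x y) := by
    refine (hi1.sub hi2).congr (Eventually.of_forall fun y => ?_)
    show (TT S).indicator (fun _ => (1 : ℝ)) y * ff E r x y - HH (co i y) * ff E r x y
      = ((TT S).indicator (fun _ => (1 : ℝ)) y - HH (co i y)) * ff E r x y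
    ring
  rw [← integral_sub hi1 hi2]
  have e0 : (∫ y, ((TT S).indicator (fun _ => (1 : ℝ)) y * ff E r x y - HH (co i y) * ff E r x y))
      = ∫ y in ⋃ j : ℤ × ℤ, {y : ℝ × ℝ | y - jv j ∈ BB},
        ((TT S).indicator (fun _ => (1 : ℝ)) y - HH (co i y)) * ff E r x y := by
    have hU : (⋃ j : ℤ × ℤ, {y : ℝ × ℝ | y - jv j ∈ BB}) = univ := by
      ext y
      simp only [mem_iUnion, mem_ofPred_eq, mem_univ, iff_true]
      exact ⟨_, jv_floor y⟩
    rw [hU, setIntegral_univ]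
    refine integral_congr_ae (Eventually.of_forall fun y => ?_)
    show (TT S).indicator (fun _ => (1 : ℝ)) y * ff E r x y - HH (co i y) * ff E r x y
      = ((TT S).indicator (fun _ => (1 : ℝ)) y - HH (co i y)) * ff E r x y
    ring
  rw [e0]
  have e1 : DD E i S r x = fun j => ∫ y in {y : ℝ × ℝ | y - jv j ∈ BB},
      ((TT S).indicator (fun _ => (1 : ℝ)) y - HH (co i y)) * ff E r x y := by
    funext j
    have hmj : MeasurableSet {y : ℝ × ℝ | y - jv j ∈ BB} :=
      (measurable_id.sub_const (jv j)) BB_meas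
    rw [← integral_indicator hmj]
    rw [← integral_add_right_eq_self (fun y => ({y : ℝ × ℝ | y - jv j ∈ BB}).indicator
      (fun y => ((TT S).indicator (fun _ => (1 : ℝ)) y - HH (co i y)) * ff E r x y) y) (jv j)]
    unfold DD
    rw [← integral_indicator BB_meas]
    refine integral_congr_ae (Eventually.of_forall fun y => ?_)
    show BB.indicator _ y = ({y : ℝ × ℝ | y - jv j ∈ BB}).indicator _ (y + jv j)
    by_cases hy : y ∈ BB
    · have hy' : y + jv j ∈ {y : ℝ × ℝ | y - jv j ∈ BB} := by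
        show y + jv j - jv j ∈ BB
        rwa [add_sub_cancel_right]
      rw [indicator_of_mem hy, indicator_of_mem hy', ff_shift]
      congr 2
      by_cases hys : y ∈ S j
      · rw [indicator_of_mem hys, indicator_of_mem ((TT_mem hS hy j).2 hys)]
      · rw [indicator_of_notMem hys, indicator_of_notMem (fun h => hys ((TT_mem hS hy j).1 h))]
    · have hy' : y + jv j ∉ {y : ℝ × ℝ | y - jv j ∈ BB} := by
        intro h
        apply hy
        have h' : y + jv j - jv j ∈ BB := h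
        rwa [add_sub_cancel_right] at h'
      rw [indicator_of_notMem hy, indicator_of_notMem hy']
  rw [e1]
  apply hasSum_integral_iUnion
  · intro j
    exact (measurable_id.sub_const (jv j)) BB_meas
  · intro j j' hjj'
    rw [Function.onFun, Set.disjoint_left]
    intro y hy hy'
    exact hjj' (jv_uniq hy hy')
  · exact hi3.integrableOn

theorem DD_zero {E : Set (ℝ × ℝ)} {L : ℝ} (hL : ∀ z ∈ E, ‖z‖ ≤ L) {r : ℝ}
    (hr : 0 < r) {x : ℝ × ℝ} (i : Fin 2) (S : ℤ × ℤ → Set (ℝ × ℝ)) {j : ℤ × ℤ}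
    (h : 1 + r * L < ‖x - jv j‖) : DD E i S r x j = 0 := by
  unfold DD
  apply setIntegral_eq_zero_of_forall_eq_zero
  intro y hy
  rw [ff_zero hL hr, mul_zero]
  have h1 := BB_norm hy
  have h2 : ‖x - jv j‖ ≤ ‖y - (x - jv j)‖ + ‖y‖ := by
    calc ‖x - jv j‖ = ‖y - (y - (x - jv j))‖ := by congr 1; abel
      _ ≤ ‖y‖ + ‖y - (x - jv j)‖ := norm_sub_le _ _
      _ = _ := add_comm _ _
  linarith

theorem ind_int {E : Set (ℝ × ℝ)} (hE : MeasurableSet E) {L : ℝ} (hL : ∀ z ∈ E, ‖z‖ ≤ L) :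
    Integrable (E.indicator (fun _ => (1 : ℝ))) := by
  rw [integrable_indicator_iff hE]
  have h1 : E ⊆ Metric.closedBall 0 L := fun z hz => by
    rw [mem_closedBall_zero_iff]
    exact hL z hz
  exact integrableOn_const ((measure_mono h1).trans_lt measure_closedBall_lt_top).ne

theorem mul_ind_int {E : Set (ℝ × ℝ)} (hE : MeasurableSet E) {L : ℝ} (hL : ∀ z ∈ E, ‖z‖ ≤ L)
    {φ : ℝ × ℝ → ℝ} (hφ : Measurable φ) (h0 : ∀ z, 0 ≤ φ z) (h1 : ∀ z, φ z ≤ 1) :
    Integrable (fun z => φ z * E.indicator (fun _ => (1 : ℝ)) z) := by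
  refine (ind_int hE hL).mono' (hφ.mul (measurable_const.indicator hE)).aestronglyMeasurable
    (Eventually.of_forall fun z => ?_)
  have h2 : (0 : ℝ) ≤ E.indicator (fun _ => (1 : ℝ)) z := indicator_nonneg (fun _ _ => zero_le_one) _
  rw [Real.norm_eq_abs, abs_mul, abs_of_nonneg (h0 z), abs_of_nonneg h2]
  exact mul_le_of_le_one_left h2 (h1 z)

theorem B_lower {E : Set (ℝ × ℝ)} (hE : MeasurableSet E) {L : ℝ} (hL : ∀ z ∈ E, ‖z‖ ≤ L)
    {r : ℝ} (hr : 0 < r) {x x' : ℝ × ℝ} (hd : dist x x' ≤ 1) (i : Fin 2)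
    (hco : co i x' - co i x = dist x x') :
    r ^ 2 * ((∫ z, E.indicator (fun _ => (1 : ℝ)) z) * eta (‖x‖ + 1 + r * L) * dist x x')
      ≤ (∫ y, HH (co i y) * ff E r x' y) - ∫ y, HH (co i y) * ff E r x y := by
  rw [cv hr x' (fun y => HH (co i y)), cv hr x (fun y => HH (co i y)), ← mul_sub]
  apply mul_le_mul_of_nonneg_left _ (by positivity)
  have hm : ∀ x : ℝ × ℝ, Measurable fun z : ℝ × ℝ => HH (co i (x + r • z)) := fun x =>
    (HH_meas i).comp ((measurable_id.const_smul r).const_add x)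
  have hi : ∀ x : ℝ × ℝ, Integrable
      (fun z : ℝ × ℝ => HH (co i (x + r • z)) * E.indicator (fun _ => (1 : ℝ)) z) := fun x =>
    mul_ind_int hE hL (hm x) (fun z => HH_nonneg _) (fun z => HH_le_one _)
  rw [← integral_sub (hi x') (hi x), mul_assoc, mul_comm (∫ z, E.indicator (fun _ => (1 : ℝ)) z),
    ← integral_const_mul]
  apply integral_mono ((ind_int hE hL).const_mul _) ((hi x').sub (hi x))
  intro z
  show eta (‖x‖ + 1 + r * L) * dist x x' * E.indicator (fun _ => (1 : ℝ)) z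
    ≤ HH (co i (x' + r • z)) * E.indicator (fun _ => (1 : ℝ)) z
      - HH (co i (x + r • z)) * E.indicator (fun _ => (1 : ℝ)) z
  by_cases hz : z ∈ E
  · rw [indicator_of_mem hz]
    have hzL := hL z hz
    have hz1 : |r * co i z| ≤ r * L := by
      rw [abs_mul, abs_of_pos hr]
      exact mul_le_mul_of_nonneg_left ((co_abs i z).trans hzL) hr.le
    have hx1 := co_abs i x
    have hx2 := co_abs i x'
    have hx3 : ‖x'‖ ≤ ‖x‖ + 1 := by
      have h1 : ‖x' - x‖ ≤ 1 := by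
        rw [← dist_eq_norm, dist_comm]
        exact hd
      have h2 : ‖x'‖ ≤ ‖x‖ + ‖x' - x‖ := by
        calc ‖x'‖ = ‖x + (x' - x)‖ := by rw [add_sub_cancel]
          _ ≤ _ := norm_add_le _ _
      linarith
    have key := HH_lower (a := co i (x + r • z)) (b := co i (x' + r • z)) (M := ‖x‖ + 1 + r * L)
      (by rw [co_add, co_add]; linarith [dist_nonneg (x := x) (y := x')])
      (by
        rw [co_add, co_smul]
        exact (abs_add_le _ _).trans (by linarith))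
      (by
        rw [co_add, co_smul]
        exact (abs_add_le _ _).trans (by linarith))
    have h3 : co i (x' + r • z) - co i (x + r • z) = dist x x' := by
      rw [co_add, co_add, ← hco]
      ring
    rw [h3] at key
    linarith
  · rw [indicator_of_notMem hz]
    simp

theorem D_bound {E : Set (ℝ × ℝ)} {L : ℝ} (hL1 : 1 ≤ L) (hL : ∀ z ∈ E, ‖z‖ ≤ L) {V : ℝ}
    (hV : 0 < V) (i : Fin 2) {S : ℤ × ℤ → Set (ℝ × ℝ)} {j : ℤ × ℤ} {w c : ℝ} (hw : 0 < w)
    (hc : ∀ r : ℝ, 1 ≤ r → c * r ^ (-(1 / 8) : ℝ) ≤ r * eta ((‖jv j‖ + 3 + 2 * L) * r))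
    {r : ℝ} (hr : 1 ≤ r) {x x' : ℝ × ℝ} (hd : dist x x' ≤ 1)
    (hT : |DD E i S r x j - DD E i S r x' j| ≤ (w * V * c) * r ^ (7 / 8 : ℝ) * dist x x') :
    |DD E i S r x j - DD E i S r x' j|
      ≤ w * (r ^ 2 * (V * eta (‖x‖ + 1 + r * L) * dist x x')) := by
  have hr0 : 0 < r := by linarith
  have hη := eta_pos (‖x‖ + 1 + r * L)
  have hdn := dist_nonneg (x := x) (y := x')
  by_cases h : ‖x - jv j‖ ≤ 2 + r * L
  · refine hT.trans ?_
    have h1 : ‖x‖ ≤ ‖x - jv j‖ + ‖jv j‖ := by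
      calc ‖x‖ = ‖(x - jv j) + jv j‖ := by rw [sub_add_cancel]
        _ ≤ _ := norm_add_le _ _
    have hj0 := norm_nonneg (jv j)
    have hx0 := norm_nonneg x
    have h2 : ‖x‖ + 1 + r * L ≤ (‖jv j‖ + 3 + 2 * L) * r := by nlinarith
    have h3 : eta ((‖jv j‖ + 3 + 2 * L) * r) ≤ eta (‖x‖ + 1 + r * L) := by
      apply eta_anti
      rw [abs_of_nonneg (by positivity), abs_of_nonneg (by positivity)]
      exact h2
    have h4 : c * r ^ (7 / 8 : ℝ) ≤ r ^ 2 * eta (‖x‖ + 1 + r * L) := by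
      have h5 : r ^ (7 / 8 : ℝ) = r * r ^ (-(1 / 8) : ℝ) := by
        rw [show (7 / 8 : ℝ) = 1 + -(1 / 8) by norm_num, Real.rpow_add hr0, Real.rpow_one]
      rw [h5]
      calc c * (r * r ^ (-(1 / 8) : ℝ)) = r * (c * r ^ (-(1 / 8) : ℝ)) := by ring
        _ ≤ r * (r * eta ((‖jv j‖ + 3 + 2 * L) * r)) :=
            mul_le_mul_of_nonneg_left (hc r hr) hr0.le
        _ ≤ r * (r * eta (‖x‖ + 1 + r * L)) :=
            mul_le_mul_of_nonneg_left (mul_le_mul_of_nonneg_left h3 hr0.le) hr0.le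
        _ = _ := by ring
    calc w * V * c * r ^ (7 / 8 : ℝ) * dist x x' = (w * V * dist x x') * (c * r ^ (7 / 8 : ℝ)) := by
          ring
      _ ≤ (w * V * dist x x') * (r ^ 2 * eta (‖x‖ + 1 + r * L)) :=
          mul_le_mul_of_nonneg_left h4 (by positivity)
      _ = _ := by ring
  · push Not at h
    have h1 : DD E i S r x j = 0 := DD_zero hL hr0 i S (by linarith)
    have h2 : DD E i S r x' j = 0 := by
      apply DD_zero hL hr0 i S
      have h3 : ‖x - jv j‖ ≤ ‖x' - jv j‖ + dist x x' := by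
        rw [dist_eq_norm]
        calc ‖x - jv j‖ = ‖(x' - jv j) + (x - x')‖ := by congr 1; abel
          _ ≤ _ := norm_add_le _ _
      linarith
    rw [h1, h2, sub_zero, abs_zero]
    positivity

theorem step {E : Set (ℝ × ℝ)} (hE : MeasurableSet E) {L : ℝ} (hL1 : 1 ≤ L)
    (hL : ∀ z ∈ E, ‖z‖ ≤ L) (hV : 0 < ∫ z, E.indicator (fun _ => (1 : ℝ)) z) (i : Fin 2)
    {S : ℤ × ℤ → Set (ℝ × ℝ)} (hSm : ∀ j, MeasurableSet (S j)) (hS : ∀ j, S j ⊆ BB)
    {w c : ℤ × ℤ → ℝ} (hw : ∀ j, 0 < w j) {cw : ℝ} (hcw : HasSum w cw) (hcw4 : cw ≤ 1 / 4)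
    (hc : ∀ j, ∀ r : ℝ, 1 ≤ r → c j * r ^ (-(1 / 8) : ℝ) ≤ r * eta ((‖jv j‖ + 3 + 2 * L) * r))
    {r : ℝ} (hr : 1 ≤ r) {x x' : ℝ × ℝ} (hd : dist x x' ≤ 1)
    (hT : ∀ j, |DD E i S r x j - DD E i S r x' j|
      ≤ (w j * (∫ z, E.indicator (fun _ => (1 : ℝ)) z) * c j) * r ^ (7 / 8 : ℝ) * dist x x')
    (hlt : 0 < dist x x') (hco : co i x' - co i x = dist x x') :
    ∫ y, (TT S).indicator (fun _ => (1 : ℝ)) y * ff E r x y
      < ∫ y, (TT S).indicator (fun _ => (1 : ℝ)) y * ff E r x' y := by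
  have hr0 : 0 < r := by linarith
  have hB := B_lower hE hL hr0 hd i hco
  have hD := fun j => D_bound hL1 hL hV i (hw j) (hc j) hr hd (hT j)
  have h1 := decomp hE hL hr0 x i hSm hS
  have h2 := decomp hE hL hr0 x' i hSm hS
  have hη := eta_pos (‖x‖ + 1 + r * L)
  set K := r ^ 2 * ((∫ z, E.indicator (fun _ => (1 : ℝ)) z) * eta (‖x‖ + 1 + r * L) * dist x x')
    with hK
  have hKpos : 0 < K := by positivity
  have h3 := h1.sub h2
  have h4 := hcw.mul_right K
  have h5 := hasSum_le (fun j => (le_abs_self _).trans (hD j)) h3 h4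
  nlinarith

end T11r

open T11r in
theorem global_of {E : Set (ℝ × ℝ)} (hE : MeasurableSet E) (hb : Bornology.IsBounded E)
    (hpos : 0 < volume E)
    (hblock : ∀ (h : ℝ × ℝ → ℝ) (Λ : ℝ), Adm Λ h → ∀ ε : ℝ, 0 < ε →
      ∃ T : Set (ℝ × ℝ), MeasurableSet T ∧ T ⊆ BB ∧ ∀ r : ℝ, 1 ≤ r → ∀ x x' : ℝ × ℝ,
        |(∫ y in BB, (T.indicator (fun _ => (1 : ℝ)) y - h y) * ff E r x y)
            - ∫ y in BB, (T.indicator (fun _ => (1 : ℝ)) y - h y) * ff E r x' y|
          ≤ ε * r ^ (7 / 8 : ℝ) * dist x x') :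
    ∃ T : Fin 2 → Set (ℝ × ℝ), (∀ i, MeasurableSet (T i)) ∧ ∀ r : ℝ, 1 ≤ r → ∀ x x' : ℝ × ℝ,
      (∀ i, ∫ y, (T i).indicator (fun _ => (1 : ℝ)) y * ff E r x y
        = ∫ y, (T i).indicator (fun _ => (1 : ℝ)) y * ff E r x' y) → x = x' := by
  obtain ⟨L₀, hL₀⟩ := hb.exists_norm_le
  set L := max L₀ 1 with hLdef
  have hL1 : 1 ≤ L := le_max_right _ _
  have hL : ∀ z ∈ E, ‖z‖ ≤ L := fun z hz => (hL₀ z hz).trans (le_max_left _ _)
  have hV : 0 < ∫ z, E.indicator (fun _ => (1 : ℝ)) z := by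
    rw [integral_indicator hE, setIntegral_const, smul_eq_mul, mul_one]
    apply ENNReal.toReal_pos hpos.ne'
    have h1 : E ⊆ Metric.closedBall 0 L := fun z hz => by
      rw [mem_closedBall_zero_iff]
      exact hL z hz
    exact ((measure_mono h1).trans_lt measure_closedBall_lt_top).ne
  obtain ⟨w, hw, cw, hcw, hcw4⟩ := posSumOfEncodable (by norm_num : (0 : ℝ) < 1 / 4) (ℤ × ℤ)
  have hC : ∀ j : ℤ × ℤ, 1 ≤ ‖jv j‖ + 3 + 2 * L := fun j => by
    have := norm_nonneg (jv j)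
    linarith
  choose c hc0 hc using fun j : ℤ × ℤ => RQ.eta_lower (hC j)
  have hε : ∀ j, 0 < w j * (∫ z, E.indicator (fun _ => (1 : ℝ)) z) * c j := fun j =>
    mul_pos (mul_pos (hw j) hV) (hc0 j)
  choose S hSm hS hSb using fun (i : Fin 2) (j : ℤ × ℤ) =>
    hblock _ _ (adm i (jv j)) _ (hε j)
  refine ⟨fun i => TT (S i), fun i => TT_meas (hSm i), ?_⟩
  intro r hr x x' heq
  by_contra hne
  -- the statement for one ordering
  have main : ∀ (i : Fin 2) (x x' : ℝ × ℝ), 0 < dist x x' → co i x' - co i x = dist x x' →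
      ∫ y, (TT (S i)).indicator (fun _ => (1 : ℝ)) y * ff E r x y
        < ∫ y, (TT (S i)).indicator (fun _ => (1 : ℝ)) y * ff E r x' y := by
    intro i x x' hpos hco
    set N : ℕ := ⌈dist x x'⌉₊ + 1 with hN
    have hN0 : (0 : ℝ) < N := by
      rw [hN]
      positivity
    have hNd : dist x x' / N ≤ 1 := by
      rw [div_le_one hN0, hN]
      push_cast
      linarith [Nat.le_ceil (dist x x')]
    set p : ℕ → ℝ × ℝ := fun m => x + ((m : ℝ) / N) • (x' - x) with hp
    have hdiff : ∀ m : ℕ, p (m + 1) - p m = ((1 : ℝ) / N) • (x' - x) := by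
      intro m
      rw [hp]
      show x + (((m + 1 : ℕ) : ℝ) / N) • (x' - x) - (x + ((m : ℝ) / N) • (x' - x)) = _
      rw [add_sub_add_left_eq_sub, ← sub_smul]
      congr 1
      push_cast
      ring
    have hdist : ∀ m : ℕ, dist (p m) (p (m + 1)) = dist x x' / N := by
      intro m
      rw [dist_comm, dist_eq_norm, hdiff, norm_smul, ← dist_eq_norm, dist_comm x' x,
        Real.norm_eq_abs, abs_of_pos (by positivity)]
      ring
    have hstep : ∀ m : ℕ, ∫ y, (TT (S i)).indicator (fun _ => (1 : ℝ)) y * ff E r (p m) y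
        < ∫ y, (TT (S i)).indicator (fun _ => (1 : ℝ)) y * ff E r (p (m + 1)) y := by
      intro m
      apply step hE hL1 hL hV i (hSm i) (hS i) hw hcw hcw4 hc hr
      · rw [hdist]
        exact hNd
      · intro j
        have := hSb i j r hr (p m - jv j) (p (m + 1) - jv j)
        rw [dist_sub_right] at this
        exact this
      · rw [hdist]
        positivity
      · rw [← co_sub, hdiff, co_smul, co_sub, hco, hdist]
        ring
    have hmono := strictMono_nat_of_lt_succ hstep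
    have h0N : 0 < N := by rw [hN]; exact Nat.succ_pos _
    have := hmono h0N
    have hp0 : p 0 = x := by
      rw [hp]
      simp
    have hpN : p N = x' := by
      rw [hp]
      show x + ((N : ℝ) / N) • (x' - x) = x'
      rw [div_self hN0.ne', one_smul, add_sub_cancel]
    have h2 : ∫ y, (TT (S i)).indicator (fun _ => (1 : ℝ)) y * ff E r (p 0) y
      < ∫ y, (TT (S i)).indicator (fun _ => (1 : ℝ)) y * ff E r (p N) y := this
    rw [hp0, hpN] at h2
    exact h2
  have hρ : 0 < dist x x' := dist_pos.2 hne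
  obtain ⟨i, hi⟩ := co_dist x x'
  rcases le_total (co i x) (co i x') with h | h
  · have h1 : co i x' - co i x = dist x x' := by
      rw [← hi, abs_sub_comm, abs_of_nonneg (by linarith)]
    exact absurd (heq i) (main i x x' hρ h1).ne
  · have h1 : co i x - co i x' = dist x' x := by
      rw [dist_comm, ← hi, abs_of_nonneg (by linarith)]
    exact absurd (heq i).symm (main i x' x (by rwa [dist_comm]) h1).ne

end Pool.Agent.Helper37.RT
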