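import Pool.Agent.Helper61.RT.T2
import Pool.Agent.Helper84.RT.T11

set_option autoImplicit false

/-! Continuity and size of the coefficients. -/

namespace Pool.Agent.Helper37.RT

open MeasureTheory Set Filter Topology
open scoped ENNReal

namespace T6r

open T11r

/-- coordinates of the index -/
def cc (i : Fin 2) (c : ℕ × ℕ) : ℝ := if i = 0 then (c.1 : ℝ) else (c.2 : ℝ)

theorem dpsi_eq (i : Fin 2) (k : ℕ) (c : ℕ × ℕ) (y : ℝ × ℝ) :
    dpsi i k c y = 2 ^ (k + 1) * (haar (2 ^ k * co i y - cc i c)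
      * tent (2 ^ k * co (1 - i) y - cc (1 - i) c)) := by
  by_cases h : i = 0
  · subst h
    rfl
  · have h1 : i = 1 := by omega
    subst h1
    show 2 ^ (k + 1) * (tent (2 ^ k * y.1 - c.1) * haar (2 ^ k * y.2 - c.2))
      = 2 ^ (k + 1) * (haar (2 ^ k * y.2 - c.2) * tent (2 ^ k * y.1 - c.1))
    ring

theorem dpsi_meas (i : Fin 2) (k : ℕ) (c : ℕ × ℕ) : Measurable (dpsi i k c) := by
  have h : dpsi i k c = fun y => 2 ^ (k + 1) * (haar (2 ^ k * co i y - cc i c)
      * tent (2 ^ k * co (1 - i) y - cc (1 - i) c)) := funext fun y => dpsi_eq i k c y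
  rw [h]
  exact ((haar_measurable.comp (((co_cont i).measurable.const_mul _).sub_const _)).mul
    (tent_continuous.measurable.comp (((co_cont (1 - i)).measurable.const_mul _).sub_const _))).const_mul _

theorem dpsi_abs (i : Fin 2) (k : ℕ) (c : ℕ × ℕ) (y : ℝ × ℝ) : |dpsi i k c y| ≤ 2 ^ (k + 1) := by
  rw [dpsi_eq, abs_mul, abs_of_pos (by positivity : (0 : ℝ) < 2 ^ (k + 1)), abs_mul,
    abs_of_nonneg (tent_nonneg _)]
  apply mul_le_of_le_one_right (by positivity)
  exact mul_le_one₀ (haar_abs _) (tent_nonneg _) (tent_le_one _)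

/-- the square of half side `L` -/
def QQ (L : ℝ) : Set (ℝ × ℝ) := Icc (-L) L ×ˢ Icc (-L) L

theorem QQ_meas (L : ℝ) : MeasurableSet (QQ L) := measurableSet_Icc.prod measurableSet_Icc

theorem QQ_of_norm {L : ℝ} {z : ℝ × ℝ} (h : ‖z‖ ≤ L) : z ∈ QQ L := by
  rw [Prod.norm_def] at h
  have h1 := (le_max_left _ _).trans h
  have h2 := (le_max_right _ _).trans h
  rw [Real.norm_eq_abs, abs_le] at h1 h2
  exact ⟨⟨h1.1, h1.2⟩, ⟨h2.1, h2.2⟩⟩

theorem QQ_co {L : ℝ} {z : ℝ × ℝ} (h : z ∈ QQ L) (i : Fin 2) : |co i z| ≤ L := by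
  obtain ⟨⟨h1, h2⟩, h3, h4⟩ := h
  unfold co
  split_ifs
  · exact abs_le.2 ⟨h1, h2⟩
  · exact abs_le.2 ⟨h3, h4⟩

theorem QQ_fin (L : ℝ) : volume (QQ L) ≠ ∞ := by
  unfold QQ
  rw [Measure.volume_eq_prod, Measure.prod_prod]
  exact ENNReal.mul_ne_top measure_Icc_lt_top.ne measure_Icc_lt_top.ne

theorem one_int {L : ℝ} (hL : 0 ≤ L) : ∫ _x in Icc (-L) L, (1 : ℝ) = 2 * L := by
  rw [setIntegral_const, smul_eq_mul, mul_one, Real.volume_real_Icc_of_le (by linarith)]
  ring

theorem Q_int {L : ℝ} (hL : 0 ≤ L) (i : Fin 2) (f : ℝ → ℝ) :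
    ∫ z in QQ L, f (co i z) = (2 * L) * ∫ t in Icc (-L) L, f t := by
  unfold QQ
  by_cases h : i = 0
  · subst h
    have := setIntegral_prod_mul (μ := (volume : Measure ℝ)) (ν := (volume : Measure ℝ)) f
      (fun _ => (1 : ℝ)) (Icc (-L) L) (Icc (-L) L)
    rw [one_int hL] at this
    rw [mul_comm, ← this]
    simp only [mul_one]
    rfl
  · have h1 : i = 1 := by omega
    subst h1
    have := setIntegral_prod_mul (μ := (volume : Measure ℝ)) (ν := (volume : Measure ℝ))
      (fun _ => (1 : ℝ)) f (Icc (-L) L) (Icc (-L) L)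
    rw [one_int hL] at this
    rw [← this]
    simp only [one_mul]
    rfl

theorem Q_const {L : ℝ} (hL : 0 ≤ L) (a : ℝ) : ∫ _z in QQ L, a = (2 * L) ^ 2 * a := by
  have h := Q_int hL 0 (fun _ => a)
  rw [h, setIntegral_const, smul_eq_mul, Real.volume_real_Icc_of_le (by linarith)]
  ring

theorem diff_pt {i : Fin 2} {k : ℕ} {c : ℕ × ℕ} {L r r' : ℝ} {x x' z : ℝ × ℝ} (hz : z ∈ QQ L) :
    |dpsi i k c (x + r • z) - dpsi i k c (x' + r' • z)|
      ≤ 2 ^ (k + 1) * (|haar ((2 ^ k * r) * co i z + (2 ^ k * co i x - cc i c))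
          - haar ((2 ^ k * r') * co i z + (2 ^ k * co i x' - cc i c))|
        + 2 * (2 ^ k * (dist x x' + |r - r'| * L))) := by
  rw [dpsi_eq, dpsi_eq, ← mul_sub, abs_mul, abs_of_pos (by positivity : (0 : ℝ) < 2 ^ (k + 1))]
  apply mul_le_mul_of_nonneg_left _ (by positivity)
  have e1 : ∀ (i : Fin 2) (r : ℝ) (x : ℝ × ℝ), 2 ^ k * co i (x + r • z) - cc i c
      = (2 ^ k * r) * co i z + (2 ^ k * co i x - cc i c) := by
    intro i r x
    rw [co_add, co_smul]
    ring
  rw [e1, e1, e1, e1]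
  set u := (2 ^ k * r) * co i z + (2 ^ k * co i x - cc i c)
  set u' := (2 ^ k * r') * co i z + (2 ^ k * co i x' - cc i c)
  set v := (2 ^ k * r) * co (1 - i) z + (2 ^ k * co (1 - i) x - cc (1 - i) c) with hv
  set v' := (2 ^ k * r') * co (1 - i) z + (2 ^ k * co (1 - i) x' - cc (1 - i) c) with hv'
  have h1 : |tent v - tent v'| ≤ 2 * (2 ^ k * (dist x x' + |r - r'| * L)) := by
    refine (tent_lip _ _).trans ?_
    apply mul_le_mul_of_nonneg_left _ (by norm_num)
    have e2 : v - v' = 2 ^ k * (co (1 - i) (x - x') + (r - r') * co (1 - i) z) := by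
      rw [hv, hv', co_sub]
      ring
    rw [e2, abs_mul, abs_of_pos (by positivity : (0 : ℝ) < 2 ^ k)]
    apply mul_le_mul_of_nonneg_left _ (by positivity)
    refine (abs_add_le _ _).trans ?_
    rw [abs_mul]
    apply add_le_add
    · rw [dist_eq_norm]
      exact co_abs _ _
    · exact mul_le_mul_of_nonneg_left (QQ_co hz _) (abs_nonneg _)
  have e3 : haar u * tent v - haar u' * tent v'
      = (haar u - haar u') * tent v + haar u' * (tent v - tent v') := by ring
  rw [e3]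
  refine (abs_add_le _ _).trans ?_
  rw [abs_mul, abs_mul, abs_of_nonneg (tent_nonneg v)]
  apply add_le_add
  · exact mul_le_of_le_one_right (abs_nonneg _) (tent_le_one _)
  · exact (mul_le_of_le_one_left (abs_nonneg _) (haar_abs _)).trans h1

theorem unit_of {k m : ℕ} (hm : m < 2 ^ k) {t : ℝ} (h0 : 0 ≤ 2 ^ k * t - m)
    (h1 : 2 ^ k * t - m < 1) : t ∈ Ico (0 : ℝ) 1 := by
  have hk : (0 : ℝ) < 2 ^ k := by positivity
  have hm' : (m : ℝ) + 1 ≤ 2 ^ k := by exact_mod_cast hm
  have hm0 : (0 : ℝ) ≤ m := Nat.cast_nonneg m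
  constructor
  · by_contra hc
    push Not at hc
    nlinarith
  · by_contra hc
    push Not at hc
    nlinarith

theorem haar_ne {t : ℝ} (h : haar t ≠ 0) : 0 ≤ t ∧ t < 1 := by
  by_contra hc
  apply h
  apply haar_zero
  by_contra h2
  push Not at h2
  exact hc h2

theorem tent_ne {t : ℝ} (h : tent t ≠ 0) : 0 ≤ t ∧ t < 1 := by
  by_contra hc
  apply h
  apply tent_zero
  by_contra h2
  push Not at h2
  exact hc ⟨h2.1.le, h2.2⟩

theorem dpsi_off {i : Fin 2} {k : ℕ} {c : ℕ × ℕ} (hc : c ∈ cells k) {y : ℝ × ℝ} (hy : y ∉ BB) :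
    dpsi i k c y = 0 := by
  by_contra h
  apply hy
  unfold cells at hc
  rw [Finset.mem_product, Finset.mem_range, Finset.mem_range] at hc
  unfold dpsi at h
  split_ifs at h with h0
  · have h1 := right_ne_zero_of_mul h
    have h2 := haar_ne (left_ne_zero_of_mul h1)
    have h3 := tent_ne (right_ne_zero_of_mul h1)
    exact ⟨unit_of hc.1 h2.1 h2.2, unit_of hc.2 h3.1 h3.2⟩
  · have h1 := right_ne_zero_of_mul h
    have h2 := tent_ne (left_ne_zero_of_mul h1)
    have h3 := haar_ne (right_ne_zero_of_mul h1)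
    exact ⟨unit_of hc.1 h2.1 h2.2, unit_of hc.2 h3.1 h3.2⟩

end T6r

open T11r T6r

theorem bb_cont {E : Set (ℝ × ℝ)} (hE : MeasurableSet E) (hb : Bornology.IsBounded E) :
    ∃ C : ℝ, 0 ≤ C ∧ ∀ (i : Fin 2) (k : ℕ) (c : ℕ × ℕ) (R r r' : ℝ) (x x' : ℝ × ℝ),
      1 ≤ r → r ≤ R → 1 ≤ r' → r' ≤ R →
      |bb E i k c r x - bb E i k c r' x'| ≤ C * 4 ^ k * R ^ 2 * (|r - r'| + dist x x') := by
  obtain ⟨L₀, hL₀⟩ := hb.exists_norm_le
  obtain ⟨L, hLdef⟩ : ∃ L, L = max L₀ 1 := ⟨_, rfl⟩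
  have hL1 : 1 ≤ L := hLdef ▸ le_max_right _ _
  have hL : ∀ z ∈ E, ‖z‖ ≤ L := fun z hz => (hL₀ z hz).trans (hLdef ▸ le_max_left _ _)
  have hL0 : 0 ≤ L := by linarith
  refine ⟨2 * (24 * L + 8 * L ^ 2) * L + 16 * L ^ 2, by positivity, ?_⟩
  intro i k c R r r' x x' hr hrR hr' hrR'
  have hr0 : 0 < r := by linarith
  have hr0' : 0 < r' := by linarith
  have hm : ∀ (r : ℝ) (x : ℝ × ℝ), Measurable fun z : ℝ × ℝ => dpsi i k c (x + r • z) := fun r x =>
    (dpsi_meas i k c).comp ((measurable_id.const_smul r).const_add x)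
  have hi : ∀ (r : ℝ) (x : ℝ × ℝ), Integrable
      (fun z : ℝ × ℝ => dpsi i k c (x + r • z) * E.indicator (fun _ => (1 : ℝ)) z) := by
    intro r x
    refine ((ind_int hE hL).const_mul (2 ^ (k + 1))).mono'
      ((hm r x).mul (measurable_const.indicator hE)).aestronglyMeasurable
      (Eventually.of_forall fun z => ?_)
    have h2 : (0 : ℝ) ≤ E.indicator (fun _ => (1 : ℝ)) z :=
      indicator_nonneg (fun _ _ => zero_le_one) _
    rw [Real.norm_eq_abs, abs_mul, abs_of_nonneg h2]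
    exact mul_le_mul_of_nonneg_right (dpsi_abs i k c _) h2
  have hEQ : E ⊆ QQ L := fun z hz => QQ_of_norm (hL z hz)
  -- the two parts
  unfold bb
  rw [cv hr0 x, cv hr0' x']
  set I : ℝ := ∫ z, dpsi i k c (x + r • z) * E.indicator (fun _ => (1 : ℝ)) z with hI
  set I' : ℝ := ∫ z, dpsi i k c (x' + r' • z) * E.indicator (fun _ => (1 : ℝ)) z with hI'
  have hsplit : r ^ 2 * I - r' ^ 2 * I' = r ^ 2 * (I - I') + (r ^ 2 - r' ^ 2) * I' := by ring
  have hI'b : |I'| ≤ 2 ^ (k + 1) * (4 * L ^ 2) := by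
    rw [hI', ← Real.norm_eq_abs]
    refine (norm_integral_le_integral_norm _).trans ?_
    have h1 : ∫ z, ‖dpsi i k c (x' + r' • z) * E.indicator (fun _ => (1 : ℝ)) z‖
        ≤ ∫ z, (QQ L).indicator (fun _ => (2 : ℝ) ^ (k + 1)) z := by
      apply integral_mono (hi r' x').norm
      · rw [integrable_indicator_iff (QQ_meas L)]
        exact integrableOn_const (QQ_fin L)
      · intro z
        show ‖dpsi i k c (x' + r' • z) * E.indicator (fun _ => (1 : ℝ)) z‖ ≤ _
        by_cases hz : z ∈ E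
        · rw [indicator_of_mem hz, indicator_of_mem (hEQ hz), mul_one, Real.norm_eq_abs]
          exact dpsi_abs i k c _
        · rw [indicator_of_notMem hz, mul_zero, norm_zero]
          exact indicator_nonneg (fun _ _ => by positivity) _
    refine h1.trans ?_
    rw [integral_indicator (QQ_meas L), Q_const hL0]
    apply le_of_eq
    ring
  have hdn := dist_nonneg (x := x) (y := x')
  have hrn := abs_nonneg (r - r')
  set D := |r - r'| + dist x x' with hD
  have hD0 : 0 ≤ D := by positivity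
  have hLD : dist x x' + |r - r'| * L ≤ L * D := by
    rw [hD]
    nlinarith
  have h2k : (1 : ℝ) ≤ 2 ^ k := one_le_pow₀ (by norm_num)
  have h4k : (4 : ℝ) ^ k = 2 ^ k * 2 ^ k := by
    rw [← mul_pow]
    norm_num
  have hdiff : |I - I'| ≤ 4 ^ k * (2 * (24 * L + 8 * L ^ 2) * (L * D)) := by
    rw [hI, hI', ← integral_sub (hi r x) (hi r' x'), ← Real.norm_eq_abs]
    refine (norm_integral_le_integral_norm _).trans ?_
    have hhm : Measurable fun z : ℝ × ℝ => |haar ((2 ^ k * r) * co i z + (2 ^ k * co i x - cc i c))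
          - haar ((2 ^ k * r') * co i z + (2 ^ k * co i x' - cc i c))| := by
      have h5 : ∀ a b : ℝ, Measurable fun z : ℝ × ℝ => haar (a * co i z + b) := fun a b =>
        haar_measurable.comp (((co_cont i).measurable.const_mul a).add_const b)
      exact ((h5 _ _).sub (h5 _ _)).norm
    have hhi : IntegrableOn (fun z : ℝ × ℝ =>
          |haar ((2 ^ k * r) * co i z + (2 ^ k * co i x - cc i c))
          - haar ((2 ^ k * r') * co i z + (2 ^ k * co i x' - cc i c))|) (QQ L) := by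
      have h6 : IntegrableOn (fun _ : ℝ × ℝ => (2 : ℝ)) (QQ L) := integrableOn_const (QQ_fin L)
      refine Integrable.mono' h6 hhm.aestronglyMeasurable (Eventually.of_forall fun z => ?_)
      rw [Real.norm_eq_abs, abs_abs]
      refine (abs_sub _ _).trans ?_
      linarith [haar_abs ((2 ^ k * r) * co i z + (2 ^ k * co i x - cc i c)),
        haar_abs ((2 ^ k * r') * co i z + (2 ^ k * co i x' - cc i c))]
    have hci : IntegrableOn (fun _ : ℝ × ℝ => 2 * (2 ^ k * (dist x x' + |r - r'| * L))) (QQ L) :=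
      integrableOn_const (QQ_fin L)
    have h1 : ∫ z, ‖dpsi i k c (x + r • z) * E.indicator (fun _ => (1 : ℝ)) z
          - dpsi i k c (x' + r' • z) * E.indicator (fun _ => (1 : ℝ)) z‖
        ≤ ∫ z, (QQ L).indicator (fun z =>
          2 ^ (k + 1) * (|haar ((2 ^ k * r) * co i z + (2 ^ k * co i x - cc i c))
          - haar ((2 ^ k * r') * co i z + (2 ^ k * co i x' - cc i c))|
        + 2 * (2 ^ k * (dist x x' + |r - r'| * L)))) z := by
      apply integral_mono ((hi r x).sub (hi r' x')).norm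
      · rw [integrable_indicator_iff (QQ_meas L)]
        exact (hhi.add hci).const_mul _
      · intro z
        show ‖dpsi i k c (x + r • z) * E.indicator (fun _ => (1 : ℝ)) z
          - dpsi i k c (x' + r' • z) * E.indicator (fun _ => (1 : ℝ)) z‖ ≤ _
        by_cases hz : z ∈ E
        · rw [indicator_of_mem hz, indicator_of_mem (hEQ hz), mul_one, mul_one, Real.norm_eq_abs]
          exact diff_pt (hEQ hz)
        · rw [indicator_of_notMem hz, mul_zero, mul_zero, sub_zero, norm_zero]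
          exact indicator_nonneg (fun _ _ => by positivity) _
    refine h1.trans ?_
    rw [integral_indicator (QQ_meas L), integral_const_mul, integral_add hhi hci,
      Q_int hL0 i (fun t => |haar ((2 ^ k * r) * t + (2 ^ k * co i x - cc i c))
          - haar ((2 ^ k * r') * t + (2 ^ k * co i x' - cc i c))|), Q_const hL0]
    have h7 := haar_affine (a := 2 ^ k * r) (b := 2 ^ k * co i x - cc i c) (a' := 2 ^ k * r')
      (b' := 2 ^ k * co i x' - cc i c) (L := L) (by nlinarith) (by nlinarith) hL0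
    have h8 : |2 ^ k * r - 2 ^ k * r'| = 2 ^ k * |r - r'| := by
      rw [← mul_sub, abs_mul, abs_of_pos (by positivity : (0 : ℝ) < 2 ^ k)]
    have h9 : |2 ^ k * co i x - cc i c - (2 ^ k * co i x' - cc i c)| ≤ 2 ^ k * dist x x' := by
      have : 2 ^ k * co i x - cc i c - (2 ^ k * co i x' - cc i c) = 2 ^ k * co i (x - x') := by
        rw [co_sub]
        ring
      rw [this, abs_mul, abs_of_pos (by positivity : (0 : ℝ) < 2 ^ k), dist_eq_norm]
      exact mul_le_mul_of_nonneg_left (co_abs _ _) (by positivity)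
    rw [h8] at h7
    have h10 : ∫ t in Icc (-L) L, |haar ((2 ^ k * r) * t + (2 ^ k * co i x - cc i c))
          - haar ((2 ^ k * r') * t + (2 ^ k * co i x' - cc i c))| ≤ 12 * (2 ^ k * (L * D)) := by
      refine h7.trans ?_
      apply mul_le_mul_of_nonneg_left _ (by norm_num)
      calc 2 ^ k * |r - r'| * L + |2 ^ k * co i x - cc i c - (2 ^ k * co i x' - cc i c)|
          ≤ 2 ^ k * |r - r'| * L + 2 ^ k * dist x x' := by linarith
        _ = 2 ^ k * (dist x x' + |r - r'| * L) := by ring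
        _ ≤ _ := mul_le_mul_of_nonneg_left hLD (by positivity)
    have h11 : 2 * (2 ^ k * (dist x x' + |r - r'| * L)) ≤ 2 * (2 ^ k * (L * D)) :=
      mul_le_mul_of_nonneg_left (mul_le_mul_of_nonneg_left hLD (by positivity)) (by norm_num)
    calc 2 ^ (k + 1) * (2 * L * (∫ t in Icc (-L) L,
            |haar ((2 ^ k * r) * t + (2 ^ k * co i x - cc i c))
            - haar ((2 ^ k * r') * t + (2 ^ k * co i x' - cc i c))|)
          + (2 * L) ^ 2 * (2 * (2 ^ k * (dist x x' + |r - r'| * L))))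
        ≤ 2 ^ (k + 1) * (2 * L * (12 * (2 ^ k * (L * D))) + (2 * L) ^ 2 * (2 * (2 ^ k * (L * D)))) := by
          apply mul_le_mul_of_nonneg_left _ (by positivity)
          exact add_le_add (mul_le_mul_of_nonneg_left h10 (by positivity))
            (mul_le_mul_of_nonneg_left h11 (by positivity))
      _ = 4 ^ k * (2 * (24 * L + 8 * L ^ 2) * (L * D)) := by
          rw [h4k]
          ring
  rw [hsplit]
  refine (abs_add_le _ _).trans ?_
  rw [abs_mul, abs_mul, abs_of_pos (by positivity : (0 : ℝ) < r ^ 2)]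
  have hR1 : 1 ≤ R := hr.trans hrR
  have hA : r ^ 2 * |I - I'| ≤ R ^ 2 * (4 ^ k * (2 * (24 * L + 8 * L ^ 2) * (L * D))) := by
    apply mul_le_mul _ hdiff (abs_nonneg _) (by positivity)
    exact pow_le_pow_left₀ hr0.le hrR 2
  have hBB : |r ^ 2 - r' ^ 2| * |I'| ≤ (2 * R * D) * (2 ^ (k + 1) * (4 * L ^ 2)) := by
    apply mul_le_mul _ hI'b (abs_nonneg _) (by positivity)
    have : r ^ 2 - r' ^ 2 = (r + r') * (r - r') := by ring
    rw [this, abs_mul, abs_of_pos (by linarith : 0 < r + r')]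
    apply mul_le_mul _ (by rw [hD]; linarith) (abs_nonneg _) (by positivity)
    linarith
  have hBB2 : (2 * R * D) * (2 ^ (k + 1) * (4 * L ^ 2)) ≤ 16 * L ^ 2 * 4 ^ k * R ^ 2 * D := by
    have e : (2 * R * D) * (2 ^ (k + 1) * (4 * L ^ 2)) = (16 * L ^ 2 * 2 ^ k * R * D) * (1 * 1) := by
      rw [pow_succ]
      ring
    have e' : 16 * L ^ 2 * 4 ^ k * R ^ 2 * D = (16 * L ^ 2 * 2 ^ k * R * D) * (2 ^ k * R) := by
      rw [h4k]
      ring
    rw [e, e']
    apply mul_le_mul_of_nonneg_left _ (by positivity)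
    exact mul_le_mul h2k hR1 (by norm_num) (by positivity)
  calc r ^ 2 * |I - I'| + |r ^ 2 - r' ^ 2| * |I'|
      ≤ R ^ 2 * (4 ^ k * (2 * (24 * L + 8 * L ^ 2) * (L * D))) + 16 * L ^ 2 * 4 ^ k * R ^ 2 * D :=
        add_le_add hA (hBB.trans hBB2)
    _ = _ := by ring

/-- no contribution when the copy misses the block -/
theorem bb_zero {E : Set (ℝ × ℝ)} {L : ℝ} (hL : ∀ z ∈ E, ‖z‖ ≤ L) (i : Fin 2) {k : ℕ} {c : ℕ × ℕ}
    (hc : c ∈ cells k) {r : ℝ} (hr : 0 < r) {x : ℝ × ℝ} (hx : 1 + r * L < ‖x‖) :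
    bb E i k c r x = 0 := by
  unfold bb
  have : (fun y => dpsi i k c y * ff E r x y) = fun _ => 0 := by
    funext y
    by_cases hy : y ∈ BB
    · rw [ff_zero hL hr, mul_zero]
      have h1 := BB_norm hy
      have h2 : ‖x‖ ≤ ‖y‖ + ‖y - x‖ := by
        calc ‖x‖ = ‖y - (y - x)‖ := by congr 1; abel
          _ ≤ _ := norm_sub_le _ _
      linarith
    · rw [dpsi_off hc hy, zero_mul]
  rw [this, integral_zero]

end Pool.Agent.Helper37.RT
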